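import Pool.Agent.helper48.AGR.Spec

/-!
# Row CNT of project ag (MP_def0df_al): countable amalgams
-/

set_option autoImplicit false

namespace Pool.Agent.AGR

open Monoid Function

theorem CNT : CNT_stmt := by
  intro L R C _ _ _ _ _ f g
  let F : List (L ⊕ R) → Am f g := fun l => (l.map (Sum.elim (fun x => (inl x : Am f g))
    (fun x => (inr x : Am f g)))).prod
  have hF : Surjective F := by
    intro x
    refine am_induction (motive := fun x => ∃ l, F l = x) x ?_ ?_ ?_
    · intro y
      exact ⟨[Sum.inl y], by simp [F]⟩
    · intro y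
      exact ⟨[Sum.inr y], by simp [F]⟩
    · rintro y z ⟨l, hl⟩ ⟨l', hl'⟩
      exact ⟨l ++ l', by simp only [F, List.map_append, List.prod_append] at *; rw [hl, hl']⟩
  exact hF.countable

end Pool.Agent.AGR
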